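import Pool.Agent.H820.T6.Stm

set_option autoImplicit false

namespace Pool.Agent.H791.T6

open Matrix Complex ComplexConjugate Pool.Agent.H820.T6
open scoped ContDiff

lemma exists_sub {V : Type} [NormedAddCommGroup V] [NormedSpace ℝ V] [FiniteDimensional ℝ V]
    (d : ℕ) (hd : d ≤ Module.finrank ℝ V) (k : ℕ) :
    ∀ W : Submodule ℝ V, Module.finrank ℝ W + k = d →
      ∃ W' : Submodule ℝ V, W ≤ W' ∧ Module.finrank ℝ W' = d := by
  induction k with
  | zero =>
    intro W h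
    exact ⟨W, le_refl _, by omega⟩
  | succ k ih =>
    intro W h
    obtain ⟨v, hv⟩ : ∃ v, v ∉ W := by
      by_contra hcon
      push Not at hcon
      have h1 : W = ⊤ := eq_top_iff.2 fun x _ => hcon x
      rw [h1, finrank_top] at h
      omega
    have hv0 : v ≠ 0 := by
      rintro rfl
      exact hv W.zero_mem
    have h1 : W ⊓ Submodule.span ℝ {v} = ⊥ := by
      rw [← disjoint_iff, Submodule.disjoint_span_singleton' hv0]
      exact hv
    have h2 := Submodule.finrank_sup_add_finrank_inf_eq W (Submodule.span ℝ {v})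
    rw [h1, finrank_bot, finrank_span_singleton hv0] at h2
    obtain ⟨W', hW', hd'⟩ := ih (W ⊔ Submodule.span ℝ {v}) (by omega)
    exact ⟨W', le_sup_left.trans hW', hd'⟩

lemma lat_zero : lat 0 := fun _ => ⟨0, 0, by simp⟩

lemma lat_add {a b : Z3} (ha : lat a) (hb : lat b) : lat (a + b) := by
  intro k
  obtain ⟨m, n, h⟩ := ha k
  obtain ⟨m', n', h'⟩ := hb k
  refine ⟨m + m', n + n', ?_⟩
  rw [Pi.add_apply, h, h']
  push_cast
  ring

lemma lat_zsmul {a : Z3} (ha : lat a) (t : ℤ) : lat (t • a) := by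
  intro k
  obtain ⟨m, n, h⟩ := ha k
  refine ⟨t * m, t * n, ?_⟩
  rw [Pi.smul_apply, h, zsmul_eq_mul]
  push_cast
  ring

lemma lat_sum {ι : Type*} (s : Finset ι) (f : ι → Z3) (h : ∀ i ∈ s, lat (f i)) :
    lat (∑ i ∈ s, f i) := by
  classical
  induction s using Finset.induction_on with
  | empty => simpa using lat_zero
  | insert a s ha ih =>
    rw [Finset.sum_insert ha]
    exact lat_add (h a (Finset.mem_insert_self a s))
      (ih fun i hi => h i (Finset.mem_insert_of_mem hi))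

/-- the real basis of `ℂ³` -/
noncomputable def bZ : Module.Basis (Σ _ : Fin 3, Fin 2) ℝ Z3 :=
  Pi.basis fun _ : Fin 3 => Complex.basisOneI

lemma lat_bZ (i : Σ _ : Fin 3, Fin 2) : lat (bZ i) := by
  intro k
  obtain ⟨j, t⟩ := i
  have h1 : bZ ⟨j, t⟩ = Pi.single j (Complex.basisOneI t) := Pi.basis_apply _ _
  rw [h1]
  by_cases hk : k = j
  · subst hk
    rw [Pi.single_eq_same]
    fin_cases t
    · exact ⟨1, 0, by simp⟩
    · exact ⟨0, 1, by simp⟩
  · rw [Pi.single_eq_of_ne hk]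
    exact ⟨0, 0, by simp⟩

lemma card_sig : Fintype.card (Σ _ : Fin 3, Fin 2) = 6 := by
  simp

theorem t_lin : S_lin := by
  intro U V _ _ _ _ _ n hn β hβ W hW hWn e
  have hq : 3 * (n / 3) + (n - 3 * (n / 3)) = n := by omega
  set q := n - 3 * (n / 3) with hqdef
  obtain ⟨W', hWW', hW'⟩ := exists_sub (6 * (n / 3)) (by omega)
    (6 * (n / 3) - Module.finrank ℝ W) W (by omega)
  obtain ⟨C, hC⟩ := Submodule.exists_isCompl W'
  have hCd : Module.finrank ℝ C = 2 * q := by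
    have := Submodule.finrank_add_eq_of_isCompl hC
    omega
  have hf1 : Module.finrank ℝ (Fin (n / 3) → Z3) = 6 * (n / 3) := by
    rw [Module.finrank_pi_fintype]
    simp [Module.finrank_pi_fintype, Complex.finrank_real_complex]
    ring
  have hf2 : Module.finrank ℝ (Fin q → ℂ) = 2 * q := by
    rw [Module.finrank_pi_fintype]
    simp [Complex.finrank_real_complex]
    ring
  let e1 : W' ≃ₗ[ℝ] (Fin (n / 3) → Z3) := LinearEquiv.ofFinrankEq _ _ (by rw [hW', hf1])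
  let e2 : C ≃ₗ[ℝ] (Fin q → ℂ) := LinearEquiv.ofFinrankEq _ _ (by rw [hCd, hf2])
  let ψ0 : V ≃ₗ[ℝ] ((Fin (n / 3) → Z3) × (Fin q → ℂ)) :=
    (Submodule.prodEquivOfIsCompl W' C hC).symm.trans (LinearEquiv.prodCongr e1 e2)
  have hfin : FiniteDimensional ℝ U := Module.Finite.of_basis e
  let ρ : Fin 6 ≃ (Σ _ : Fin 3, Fin 2) := (Fintype.equivFinOfCardEq card_sig).symm
  let φ0 : U ≃ₗ[ℝ] Z3 := e.equiv bZ ρ
  have hψ : ∀ x ∈ W', ψ0 x = ((ψ0 x).1, 0) := by
    intro x hx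
    have h1 : (Submodule.prodEquivOfIsCompl W' C hC).symm x = (⟨x, hx⟩, 0) :=
      Submodule.prodEquivOfIsCompl_symm_apply_left W' C hC (⟨x, hx⟩ : W')
    have h2 : ψ0 x = (e1 ⟨x, hx⟩, e2 0) := by
      change LinearEquiv.prodCongr e1 e2 ((Submodule.prodEquivOfIsCompl W' C hC).symm x) = _
      rw [h1]
      rfl
    rw [h2, map_zero]
  refine ⟨q, hq, φ0.toContinuousLinearEquiv, ψ0.toContinuousLinearEquiv,
    (β.compl₁₂ (φ0.symm : Z3 →ₗ[ℝ] U) (φ0.symm : Z3 →ₗ[ℝ] U)).compr₂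
      ((LinearMap.fst ℝ (Fin (n / 3) → Z3) (Fin q → ℂ)).comp (ψ0 : V →ₗ[ℝ] _)), ?_, ?_, ?_⟩
  · intro a
    have h1 : φ0.toContinuousLinearEquiv (∑ i, a i • e i) = ∑ i, a i • bZ (ρ i) := by
      rw [map_sum]
      refine Finset.sum_congr rfl fun i _ => ?_
      rw [map_zsmul]
      congr 1
      exact e.equiv_apply _ _ _
    rw [h1]
    exact lat_sum _ _ fun i _ => lat_zsmul (lat_bZ _) _
  · intro z
    change (ψ0 (β (φ0.symm z) (φ0.symm z))).1 = 0
    rw [hβ, map_zero]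
    rfl
  · intro u v
    change ψ0 (β u v) = ((ψ0 (β (φ0.symm (φ0 u)) (φ0.symm (φ0 v)))).1, 0)
    rw [φ0.symm_apply_apply, φ0.symm_apply_apply]
    exact hψ _ (hWW' (hW u v))

end Pool.Agent.H791.T6
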