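import Pool.Agent.H820.T6.Stm

set_option autoImplicit false

namespace Pool.Agent.H791.T6

open Matrix Complex ComplexConjugate Pool.Agent.H820.T6
open scoped ContDiff

lemma skew_dot {M : M4} (hM : Mᵀ = -M) (v : C4) : v ⬝ᵥ (M *ᵥ v) = 0 := by
  have h1 : v ⬝ᵥ (M *ᵥ v) = -(v ⬝ᵥ (M *ᵥ v)) := by
    conv_lhs => rw [dotProduct_mulVec, ← mulVec_transpose, hM, neg_mulVec, neg_dotProduct,
      dotProduct_comm]
  have h2 : (2 : ℂ) * (v ⬝ᵥ (M *ᵥ v)) = 0 := by linear_combination h1
  exact (mul_eq_zero.1 h2).resolve_left two_ne_zero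

lemma nn_ne {s : C4} (hs : s ≠ 0) : nn s ≠ 0 := by
  intro h
  apply hs
  have h1 : nn s = ((∑ k, Complex.normSq (s k) : ℝ) : ℂ) := by
    unfold nn
    push_cast
    exact Finset.sum_congr rfl fun k _ => Complex.mul_conj (s k)
  rw [h1] at h
  have h2 : ∑ k, Complex.normSq (s k) = 0 := by exact_mod_cast h
  have h3 := (Finset.sum_eq_zero_iff_of_nonneg (fun k _ => Complex.normSq_nonneg (s k))).1 h2
  funext k
  exact Complex.normSq_eq_zero.1 (h3 k (Finset.mem_univ k))

theorem t_sum : S_sum := by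
  intro c s Q S hc hs hQ hS z
  have hG : s z ⬝ᵥ G c s S z = phi c s S z := by
    have h1 : s z ⬝ᵥ G c s S z = phi c s S z * nn (s z) / nn (s z) := by
      unfold G dotProduct
      rw [nn, Finset.mul_sum, Finset.sum_div]
      refine Finset.sum_congr rfl fun k _ => ?_
      rw [← mul_div_assoc]
      ring
    rw [h1, mul_div_assoc, div_self (nn_ne (hs z)), mul_one]
  have hA : ∀ m, s z ⬝ᵥ A c s Q S m z = ∑ l, if l < m then c⁻¹ * D s S l m z else 0 := by
    intro m
    unfold A
    rw [dotProduct_add, dotProduct_neg, dotProduct_smul, dotProduct_sum, dotProduct_sum]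
    have h1 : ∑ k, s z ⬝ᵥ (z k • (Q k m *ᵥ s z)) = 0 := by
      refine Finset.sum_eq_zero fun k _ => ?_
      rw [dotProduct_smul, skew_dot (hQ k m), smul_zero]
    rw [h1, smul_zero, neg_zero, zero_add]
    refine Finset.sum_congr rfl fun l _ => ?_
    split_ifs
    · rw [mulVec_sub, mulVec_smul, mulVec_smul, dotProduct_sub, dotProduct_smul, dotProduct_smul,
        skew_dot (hS l m), smul_zero, sub_zero]
      rfl
    · exact dotProduct_zero _
  have hH1 : s z ⬝ᵥ H1 c s Q S z
      = ∑ m, conj (z m) * ∑ l, if l < m then c⁻¹ * D s S l m z else 0 := by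
    unfold H1
    rw [dotProduct_add, dotProduct_smul, dotProduct_sum, dotProduct_sum]
    have h1 : ∑ m, s z ⬝ᵥ (∑ l, if l < m then (conj (z l) * conj (z m)) • (S l m *ᵥ s z) else 0)
        = 0 := by
      refine Finset.sum_eq_zero fun m _ => ?_
      rw [dotProduct_sum]
      refine Finset.sum_eq_zero fun l _ => ?_
      split_ifs
      · rw [dotProduct_smul, skew_dot (hS l m), smul_zero]
      · exact dotProduct_zero _
    rw [h1, smul_zero, add_zero]
    refine Finset.sum_congr rfl fun m _ => ?_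
    rw [dotProduct_smul, hA m, smul_eq_mul]
  unfold H
  rw [dotProduct_add, hG, hH1]
  unfold phi psi
  rw [← Finset.sum_add_distrib]
  refine Finset.sum_congr rfl fun m _ => ?_
  rw [Finset.mul_sum, ← Finset.sum_add_distrib]
  refine Finset.sum_congr rfl fun l _ => ?_
  split_ifs
  · ring
  · ring

end Pool.Agent.H791.T6
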