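import Pool.Agent.H820.T6.Stm
import Pool.Agent.H791.T6.Sum

set_option autoImplicit false

namespace Pool.Agent.H791.T6

open Matrix Complex ComplexConjugate Pool.Agent.H820.T6
open scoped ContDiff

lemma mulVec_smooth {f : Z3 → C4} (hf : ContDiff ℝ ∞ f) (M : M4) :
    ContDiff ℝ ∞ (fun z => M *ᵥ f z) := by
  rw [contDiff_pi]
  intro i
  unfold mulVec dotProduct
  exact ContDiff.sum fun j _ => contDiff_const.mul ((contDiff_pi.1 hf) j)

lemma mulVec_smoothC {f : Z3 → C4} (hf : ContDiff ℂ ∞ f) (M : M4) :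
    ContDiff ℂ ∞ (fun z => M *ᵥ f z) := by
  rw [contDiff_pi]
  intro i
  unfold mulVec dotProduct
  exact ContDiff.sum fun j _ => contDiff_const.mul ((contDiff_pi.1 hf) j)

lemma pd_smooth {s : Z3 → C4} (hs : ContDiff ℂ ∞ s) (l : Fin 3) : ContDiff ℂ ∞ (pd s l) := by
  unfold pd
  exact (hs.fderiv_right (m := ∞) (by simp)).clm_apply contDiff_const

lemma D_smooth {s : Z3 → C4} (hs : ContDiff ℂ ∞ s) (S : Fin 3 → Fin 3 → M4) (l m : Fin 3) :
    ContDiff ℂ ∞ (D s S l m) := by
  unfold D dotProduct
  exact ContDiff.sum fun j _ => ((contDiff_pi.1 hs) j).mul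
    ((contDiff_pi.1 (mulVec_smoothC (pd_smooth hs l) (S l m))) j)

lemma dD_smooth {s : Z3 → C4} (hs : ContDiff ℂ ∞ s) (S : Fin 3 → Fin 3 → M4) (l m : Fin 3) :
    ContDiff ℂ ∞ (fun z => fderiv ℂ (D s S l m) z (Pi.single m 1)) :=
  ((D_smooth hs S l m).fderiv_right (m := ∞) (by simp)).clm_apply contDiff_const

lemma coord_smooth (k : Fin 3) : ContDiff ℝ ∞ (fun z : Z3 => z k) :=
  contDiff_apply ℝ ℂ k

lemma conj_smooth {f : Z3 → ℂ} (hf : ContDiff ℝ ∞ f) : ContDiff ℝ ∞ (fun z => conj (f z)) :=
  Complex.conjCLE.contDiff.comp hf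

theorem t_smooth : S_smooth := by
  intro c s Q S hs hne
  have hsR : ContDiff ℝ ∞ s := hs.restrict_scalars ℝ
  have hpd : ∀ l, ContDiff ℝ ∞ (pd s l) := fun l => (pd_smooth hs l).restrict_scalars ℝ
  have hA : ∀ m, ContDiff ℝ ∞ (A c s Q S m) := by
    intro m
    unfold A
    refine ContDiff.add ?_ ?_
    · refine (ContDiff.const_smul (1 / 2 : ℂ) (ContDiff.sum fun k _ => ?_)).neg
      exact (coord_smooth k).smul (mulVec_smooth hsR _)
    · refine ContDiff.sum fun l _ => ?_
      by_cases h : l < m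
      · simp only [h, if_true]
        exact mulVec_smooth (((hpd l).const_smul _).sub ((coord_smooth l).smul hsR)) _
      · simp only [h, if_false]
        exact contDiff_const
  have hH1 : ContDiff ℝ ∞ (H1 c s Q S) := by
    unfold H1
    refine ContDiff.add ?_ ?_
    · exact ContDiff.sum fun m _ => (conj_smooth (coord_smooth m)).smul (hA m)
    · refine ContDiff.const_smul (1 / 2 : ℂ) (ContDiff.sum fun m _ => ContDiff.sum fun l _ => ?_)
      by_cases h : l < m
      · simp only [h, if_true]
        exact ((conj_smooth (coord_smooth l)).mul (conj_smooth (coord_smooth m))).smul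
          (mulVec_smooth hsR _)
      · simp only [h, if_false]
        exact contDiff_const
  have hphi : ContDiff ℝ ∞ (phi c s S) := by
    unfold phi
    refine ContDiff.sum fun m _ => ContDiff.sum fun l _ => ?_
    by_cases h : l < m
    · simp only [h, if_true]
      refine ContDiff.add ?_ ?_
      · exact contDiff_const.mul ((dD_smooth hs S l m).restrict_scalars ℝ)
      · exact (contDiff_const.mul ((coord_smooth m).sub (conj_smooth (coord_smooth m)))).mul
          ((D_smooth hs S l m).restrict_scalars ℝ)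
    · simp only [h, if_false]
      exact contDiff_const
  have hnn : ContDiff ℝ ∞ (fun z => nn (s z)) := by
    unfold nn
    exact ContDiff.sum fun k _ => ((contDiff_pi.1 hsR) k).mul (conj_smooth ((contDiff_pi.1 hsR) k))
  have hG : ContDiff ℝ ∞ (G c s S) := by
    rw [contDiff_pi]
    intro k
    unfold G
    simp only [div_eq_mul_inv]
    exact (hphi.mul (conj_smooth ((contDiff_pi.1 hsR) k))).mul (hnn.inv fun z => nn_ne (hne z))
  unfold H
  exact hH1.add hG

end Pool.Agent.H791.T6
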